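import Pool.Agent.Helper54.SR.Defs

/-!
# SR-P2: `p`-power orders in the image of a decomposition group, conjugacy of complements
-/

set_option autoImplicit false
open scoped Pointwise

namespace Pool.Agent.Helper54.SR

/-- SR-P2a -/
theorem pow_eq_one_of_inertia {p ℓ : ℕ} [Fact p.Prime] {k : Type} [Field k] [CharP k p]
    {D G : Type} [Group D] [Finite D] [Group G] (ρ : D →* G) (V : Subgroup G)
    (hVℓ : ∀ a ∈ V, a ^ ℓ = 1) (θ : D → k) (hθ0 : ∀ d, θ d ≠ 0)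
    (hθm : ∀ d e, θ (d * e) = θ d * θ e) (hθ : ∀ d, θ d = 1 → ∃ a : ℕ, d ^ p ^ a = 1)
    (hD : ∀ d, ∃ a : ℕ, ρ d ^ p ^ a ∈ V) (τ υ : D) (hυ : ∃ a : ℕ, υ ^ p ^ a = 1) :
    ∃ a : ℕ, ρ (τ ^ ℓ * υ) ^ p ^ a = 1 := by
  have hp : p.Prime := Fact.out
  have h1 : θ 1 = 1 := by
    have h := hθm 1 1
    rw [mul_one] at h
    exact (mul_eq_left₀ (hθ0 1)).1 h.symm
  set θ' : D →* k := { toFun := θ, map_one' := h1, map_mul' := hθm } with hθ'
  have hθe : ∀ d, θ' d = θ d := fun d => rfl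
  -- roots of unity of `p`-power order are trivial
  have hroot : ∀ (z : k) (a : ℕ), z ^ p ^ a = 1 → z = 1 := by
    intro z a hz
    have h2 : (z - 1) ^ p ^ a = 0 := by
      rw [sub_pow_char_pow, hz, one_pow, sub_self]
    exact sub_eq_zero.1 (pow_eq_zero_iff (pow_ne_zero a hp.ne_zero) |>.1 h2)
  set W : Subgroup G := θ'.ker.map ρ with hW
  have hWp : ∀ w ∈ W, ∃ a : ℕ, w ^ p ^ a = 1 := by
    rintro w ⟨d, hd, rfl⟩
    obtain ⟨a, ha⟩ := hθ d hd
    exact ⟨a, by rw [← map_pow, ha, map_one]⟩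
  have hυW : ρ υ ∈ W := by
    obtain ⟨a, ha⟩ := hυ
    refine ⟨υ, ?_, rfl⟩
    refine hroot (θ' υ) a ?_
    rw [← map_pow, ha, map_one]
  -- the order of `θ τ` is prime to `p`
  set N := Nat.card D with hN
  have hN0 : N ≠ 0 := Nat.card_pos.ne'
  obtain ⟨b, m, hm, hNm⟩ := Nat.exists_eq_pow_mul_and_not_dvd hN0 p hp.ne_one
  have hτm : ρ τ ^ m ∈ W := by
    refine ⟨τ ^ m, ?_, map_pow _ _ _⟩
    refine hroot (θ' (τ ^ m)) b ?_
    rw [← map_pow, ← pow_mul, mul_comm m, ← hNm, hN, pow_card_eq_one', map_one]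
  obtain ⟨a, ha⟩ := hD τ
  have hx1 : (ρ τ ^ ℓ) ^ p ^ a = 1 := by
    rw [← pow_mul, mul_comm, pow_mul]
    exact hVℓ _ ha
  have hx2 : (ρ τ ^ ℓ) ^ m ∈ W := by
    rw [← pow_mul, mul_comm, pow_mul]
    exact W.pow_mem hτm ℓ
  have hcop : Nat.Coprime m (p ^ a) :=
    (Nat.Coprime.pow_left a ((Nat.Prime.coprime_iff_not_dvd hp).2 hm)).symm
  have hxW : ρ τ ^ ℓ ∈ W := by
    have hb := Nat.gcd_eq_gcd_ab m (p ^ a)
    rw [Nat.Coprime.gcd_eq_one hcop] at hb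
    have h3 : ρ τ ^ ℓ = ((ρ τ ^ ℓ) ^ m) ^ (Nat.gcdA m (p ^ a)) *
        ((ρ τ ^ ℓ) ^ (p ^ a)) ^ (Nat.gcdB m (p ^ a)) := by
      rw [← zpow_natCast (ρ τ ^ ℓ) m, ← zpow_natCast (ρ τ ^ ℓ) (p ^ a), ← zpow_mul, ← zpow_mul,
        ← zpow_add, ← hb]
      simp
    rw [h3, hx1, one_zpow, mul_one]
    exact W.zpow_mem hx2 _
  refine hWp _ ?_
  rw [map_mul, map_pow]
  exact W.mul_mem hxW hυW

/-- SR-P2c -/
theorem conj_of_sup {p ℓ : ℕ} [Fact p.Prime] (hℓp : ¬ p ∣ ℓ) {G : Type} [Group G] [Finite G]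
    (V : Subgroup G) [V.Normal] (hVℓ : ∀ a : V, a ^ ℓ = 1) (I P : Subgroup G)
    (hI : IsPGroup p I) (hP : IsPGroup p P) (h : I ⊔ V = P ⊔ V) :
    ∃ x : G, ∀ g, g ∈ P ↔ x⁻¹ * g * x ∈ I := by
  have hp : p.Prime := Fact.out
  have hV : ¬ p ∣ Nat.card V := by
    intro hd
    obtain ⟨a, ha⟩ := exists_prime_orderOf_dvd_card' p hd
    apply hℓp
    rw [← ha]
    exact orderOf_dvd_of_pow_eq_one (hVℓ a)
  have key : ∀ J : Subgroup G, IsPGroup p J → J.relIndex (J ⊔ V) = Nat.card V := by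
    intro J hJ
    have hcop : Nat.Coprime (Nat.card V) (Nat.card J) := by
      obtain ⟨n, hn⟩ := IsPGroup.iff_card.1 hJ
      rw [hn]
      exact (Nat.Coprime.pow_left n ((Nat.Prime.coprime_iff_not_dvd hp).2 hV)).symm
    have h1 : V.relIndex J = Nat.card J := by
      rw [← Subgroup.inf_relIndex_right, (Subgroup.disjoint_of_coprime_natCard hcop).eq_bot,
        Subgroup.relIndex_bot_left]
    have h2 : V.relIndex (J ⊔ V) = V.relIndex J := Subgroup.relIndex_sup_right J V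
    have h3 := Subgroup.relIndex_mul_relIndex (⊥ : Subgroup G) V (J ⊔ V) bot_le le_sup_right
    have h4 := Subgroup.relIndex_mul_relIndex (⊥ : Subgroup G) J (J ⊔ V) bot_le le_sup_left
    rw [Subgroup.relIndex_bot_left, h2, h1] at h3
    rw [Subgroup.relIndex_bot_left] at h4
    rw [← h3, mul_comm (Nat.card V)] at h4
    exact Nat.eq_of_mul_eq_mul_left Nat.card_pos h4
  set H : Subgroup G := I ⊔ V with hH
  have hI' : ¬ p ∣ (I.subgroupOf H).index := by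
    have : (I.subgroupOf H).index = Nat.card V := key I hI
    rwa [this]
  have hP' : ¬ p ∣ (P.subgroupOf H).index := by
    have : (P.subgroupOf H).index = Nat.card V := by rw [h]; exact key P hP
    rwa [this]
  have hIp : IsPGroup p (I.subgroupOf H) := hI.comap_subtype
  have hPp : IsPGroup p (P.subgroupOf H) := hP.comap_subtype
  obtain ⟨x, hx⟩ := MulAction.exists_smul_eq H (hIp.toSylow hI') (hPp.toSylow hP')
  have hx' : MulAut.conj x • (I.subgroupOf H) = P.subgroupOf H := by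
    have := congrArg (fun Q : Sylow p H => (Q : Subgroup H)) hx
    exact this
  have hmem : ∀ g : H, g ∈ P.subgroupOf H ↔ x⁻¹ * g * x ∈ I.subgroupOf H := by
    intro g
    rw [← hx', Subgroup.mem_pointwise_smul_iff_inv_smul_mem]
    simp [MulAut.smul_def, ← map_inv, MulAut.conj_apply]
  have hPH : P ≤ H := by rw [h]; exact le_sup_left
  refine ⟨(x : G), fun g => ⟨fun hg => ?_, fun hg => ?_⟩⟩
  · have := (hmem ⟨g, hPH hg⟩).1 (Subgroup.mem_subgroupOf.2 hg)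
    exact Subgroup.mem_subgroupOf.1 this
  · have hgH : g ∈ H := by
      have h1 : (x : G)⁻¹ * g * x ∈ H := (le_sup_left : I ≤ H) hg
      have h2 := H.mul_mem (H.mul_mem x.2 h1) (H.inv_mem x.2)
      have h3 : (x : G) * ((x : G)⁻¹ * g * x) * (x : G)⁻¹ = g := by group
      rwa [h3] at h2
    have := (hmem ⟨g, hgH⟩).2 (Subgroup.mem_subgroupOf.2 hg)
    exact Subgroup.mem_subgroupOf.1 this

end Pool.Agent.Helper54.SR
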