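import Pool.Agent.Helper54.SR.Defs
import Pool.Agent.Helper41.Eggert.Zero

/-!
# SR-C1a: Tsen's theorem for systems of polynomials without constant term
-/

set_option autoImplicit false

namespace Pool.Agent.Helper54.SR

section tsen

variable {k : Type} [Field k]

/-- the generic polynomial of degree at most `S` -/
private noncomputable def genY (k : Type) [Field k] (N S : ℕ) (j : Fin N) :
    Polynomial (MvPolynomial (Fin (N * (S + 1))) k) :=
  ∑ a : Fin (S + 1), Polynomial.C (MvPolynomial.X (finProdFinEquiv (j, a))) *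
    Polynomial.X ^ (a : ℕ)

private noncomputable def spY (N S : ℕ) (c : Fin (N * (S + 1)) → k) (j : Fin N) : Polynomial k :=
  ∑ a : Fin (S + 1), Polynomial.C (c (finProdFinEquiv (j, a))) * Polynomial.X ^ (a : ℕ)

private lemma map_genY (N S : ℕ) (c : Fin (N * (S + 1)) → k) (j : Fin N) :
    (genY k N S j).map (MvPolynomial.eval c) = spY N S c j := by
  simp [genY, spY, Polynomial.map_sum]

private lemma natDegree_genY (N S : ℕ) (j : Fin N) : (genY k N S j).natDegree ≤ S := by
  refine Polynomial.natDegree_sum_le_of_forall_le _ _ fun a _ => ?_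
  exact (Polynomial.natDegree_C_mul_X_pow_le _ _).trans (Nat.lt_succ_iff.1 a.2)

private lemma coeff_spY (N S : ℕ) (c : Fin (N * (S + 1)) → k) (j : Fin N) (a : Fin (S + 1)) :
    (spY N S c j).coeff (a : ℕ) = c (finProdFinEquiv (j, a)) := by
  rw [spY, Polynomial.finsetSum_coeff]
  rw [Finset.sum_eq_single a]
  · simp
  · intro b _ hb
    rw [Polynomial.coeff_C_mul_X_pow, if_neg]
    intro h
    exact hb (Fin.ext h.symm)
  · intro h
    exact absurd (Finset.mem_univ _) h

end tsen

/-- SR-C1a -/
theorem tsen_system {k : Type} [Field k] [IsAlgClosed k] {N m n : ℕ}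
    (P : Fin m → MvPolynomial (Fin N) (RatFunc k)) (hdeg : ∀ i, (P i).totalDegree ≤ n)
    (h0 : ∀ i, MvPolynomial.eval 0 (P i) = 0) (hN : n * m < N) :
    ∃ x : Fin N → RatFunc k, x ≠ 0 ∧ ∀ i, MvPolynomial.eval x (P i) = 0 := by
  classical
  -- clear the denominators
  obtain ⟨b, hb⟩ := IsLocalization.exist_integer_multiples_of_finset
    (nonZeroDivisors (Polynomial k)) (Finset.univ.biUnion
      (fun i : Fin m => (P i).support.image (fun s => (P i).coeff s)))
  set D : RatFunc k := algebraMap (Polynomial k) (RatFunc k) (b : Polynomial k) with hD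
  have hD0 : D ≠ 0 := by
    rw [hD]
    exact IsFractionRing.to_map_ne_zero_of_mem_nonZeroDivisors b.2
  have hd : ∀ (i : Fin m) (s : Fin N →₀ ℕ), ∃ d : Polynomial k,
      algebraMap (Polynomial k) (RatFunc k) d = D * (P i).coeff s := by
    intro i s
    by_cases hs : s ∈ (P i).support
    · obtain ⟨d, hd⟩ := hb ((P i).coeff s) (Finset.mem_biUnion.2 ⟨i, Finset.mem_univ i,
        Finset.mem_image_of_mem _ hs⟩)
      refine ⟨d, ?_⟩
      rw [hd, hD, Algebra.smul_def]
    · refine ⟨0, ?_⟩
      rw [MvPolynomial.notMem_support_iff.1 hs, mul_zero, map_zero]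
  choose d hd using hd
  set δ : ℕ := Finset.univ.sup (fun i : Fin m => (P i).support.sup (fun s => (d i s).natDegree))
    with hδ
  have hδ' : ∀ i, ∀ s ∈ (P i).support, (d i s).natDegree ≤ δ := by
    intro i s hs
    refine le_trans ?_ (Finset.le_sup (f := fun i : Fin m => (P i).support.sup
      (fun s => (d i s).natDegree)) (Finset.mem_univ i))
    exact Finset.le_sup (f := fun s => (d i s).natDegree) hs
  set S : ℕ := m * (δ + 1) with hS
  set R : Fin m → Polynomial (MvPolynomial (Fin (N * (S + 1))) k) := fun i =>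
    ∑ s ∈ (P i).support, (d i s).map MvPolynomial.C * ∏ j, genY k N S j ^ (s j) with hR
  have hRdeg : ∀ i, (R i).natDegree ≤ δ + S * n := by
    intro i
    refine Polynomial.natDegree_sum_le_of_forall_le _ _ fun s hs => ?_
    refine Polynomial.natDegree_mul_le.trans (Nat.add_le_add ?_ ?_)
    · exact Polynomial.natDegree_map_le.trans (hδ' i s hs)
    · refine (Polynomial.natDegree_prod_le _ _).trans ?_
      have h1 : ∑ j, (genY k N S j ^ (s j)).natDegree ≤ ∑ j, s j * S := by
        refine Finset.sum_le_sum fun j _ => ?_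
        exact Polynomial.natDegree_pow_le.trans (Nat.mul_le_mul_left _ (natDegree_genY N S j))
      refine h1.trans ?_
      rw [← Finset.sum_mul, mul_comm]
      refine Nat.mul_le_mul_left _ ?_
      have h2 := (MvPolynomial.le_totalDegree hs).trans (hdeg i)
      rwa [Finsupp.sum_fintype _ _ (fun _ => rfl)] at h2
  have hRmap : ∀ i (c : Fin (N * (S + 1)) → k), (R i).map (MvPolynomial.eval c) =
      ∑ s ∈ (P i).support, d i s * ∏ j, spY N S c j ^ (s j) := by
    intro i c
    have hc : (MvPolynomial.eval c).comp MvPolynomial.C = RingHom.id k := by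
      ext a
      simp
    rw [hR]
    simp only [Polynomial.map_sum, Polynomial.map_mul, Polynomial.map_prod, Polynomial.map_pow,
      map_genY, Polynomial.map_map, hc, Polynomial.map_id]
  have hkey : ∀ i (c : Fin (N * (S + 1)) → k),
      algebraMap (Polynomial k) (RatFunc k) ((R i).map (MvPolynomial.eval c)) =
      D * MvPolynomial.eval (fun j => algebraMap (Polynomial k) (RatFunc k) (spY N S c j)) (P i) := by
    intro i c
    rw [hRmap, MvPolynomial.eval_eq', Finset.mul_sum, map_sum]
    refine Finset.sum_congr rfl fun s _ => ?_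
    rw [map_mul, map_prod, hd, mul_assoc]
    simp only [map_pow]
  have hcard : ((Finset.univ : Finset (Fin m)) ×ˢ Finset.range (δ + S * n + 1)).card <
      N * (S + 1) := by
    rw [Finset.card_product, Finset.card_univ, Fintype.card_fin, Finset.card_range]
    have h1 : (n * m + 1) * (S + 1) ≤ N * (S + 1) := Nat.mul_le_mul_right _ hN
    have h2 : m * (δ + S * n + 1) = n * m * S + S := by
      rw [hS]; ring
    rw [h2]
    have h3 : (n * m + 1) * (S + 1) = n * m * S + S + (n * m + 1) := by ring
    omega
  obtain ⟨c, hc0, hc⟩ := Helper41.Eggert.exists_ne_zero_common_zero (K := k)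
    (N := N * (S + 1))
    (((Finset.univ : Finset (Fin m)) ×ˢ Finset.range (δ + S * n + 1)).image
      (fun t => (R t.1).coeff t.2))
    (Finset.card_image_le.trans_lt hcard) (by
      intro f hf
      obtain ⟨t, _, rfl⟩ := Finset.mem_image.1 hf
      rw [← Polynomial.coeff_map]
      have h1 := hkey t.1 (0 : Fin (N * (S + 1)) → k)
      have h2 : (fun j => algebraMap (Polynomial k) (RatFunc k)
          (spY N S (0 : Fin (N * (S + 1)) → k) j)) = 0 := by
        funext j
        simp [spY]
      rw [h2, h0, mul_zero, ← map_zero (algebraMap (Polynomial k) (RatFunc k))] at h1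
      rw [IsFractionRing.injective (Polynomial k) (RatFunc k) h1, Polynomial.coeff_zero])
  refine ⟨fun j => algebraMap (Polynomial k) (RatFunc k) (spY N S c j), ?_, ?_⟩
  · intro h
    apply hc0
    funext v
    obtain ⟨⟨j, a⟩, rfl⟩ := finProdFinEquiv.surjective v
    have h1 := congrFun h j
    simp only [Pi.zero_apply] at h1
    rw [← map_zero (algebraMap (Polynomial k) (RatFunc k))] at h1
    have h2 := IsFractionRing.injective (Polynomial k) (RatFunc k) h1
    rw [← coeff_spY N S c j a, h2, Polynomial.coeff_zero, Pi.zero_apply]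
  · intro i
    have h1 := hkey i c
    have h2 : (R i).map (MvPolynomial.eval c) = 0 := by
      ext l
      rw [Polynomial.coeff_zero]
      by_cases hl : l ≤ δ + S * n
      · rw [Polynomial.coeff_map]
        exact hc _ (Finset.mem_image.2 ⟨(i, l), by simp; omega, rfl⟩)
      · refine Polynomial.coeff_eq_zero_of_natDegree_lt ?_
        exact (Polynomial.natDegree_map_le.trans (hRdeg i)).trans_lt (not_le.1 hl)
    rw [h2, map_zero] at h1
    exact (mul_eq_zero.1 h1.symm).resolve_left hD0

end Pool.Agent.Helper54.SR
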